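import Pool.Agent.Q85.PN.Fin

/-!
# The variance of primes in short intervals on geometric nets

Let `V (X; H) = (1 / X) ∫_0^X (ψ (x + H) - ψ (x) - H)² dx`, the mean square in the form of Goldston
and Montgomery.  Unconditionally it is shown that the asymptotic formula
`V (X; H) ~ H (log X - log H - (γ + log 2π))` for `X ^ ε ≤ H ≤ X ^ (1 - ε)` holds if and only if it
holds for powers `X = l ^ j`, `H = l ^ k` of numbers `l > 1` arbitrarily near to `1`
(for every such `l` a net with `O (log X)` values of `H` for `X` in a geometric progression), and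
that the formula on the net of the powers of one single number `1 < l ≤ 2`, for example `l = 2`,
gives the bound `V (X; H) ≤ 193 H log X` for all `X ^ ε ≤ H ≤ X ^ (1 - ε)` and all large `X`.

Proof.  `X V (X; H)` is increasing in `X`, and with `J (X, H) = X V (X; H)`
`J (X, H₀ + h) ≤ (1 + η) J (X, H₀) + (1 + 1 / η) J (X + H₀, h)`, and the same with `H₀` and `H₀ + h`
exchanged.  A greedy expansion of `h` in powers of `l` gives an upper bound of the right order for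
all `h`, so that changing `H` by `h ≤ (l - 1) H` is harmless.
-/

set_option autoImplicit false

open Filter Topology

namespace Pool.Agent.Results.MP_2a816b_nt.GeometricNets

/-- `ψ (x) = ∑_{n ≤ x} Λ (n)` -/
noncomputable def psi (x : ℝ) : ℝ := ∑ n ∈ Finset.Icc 1 ⌊x⌋₊, ArithmeticFunction.vonMangoldt n

/-- `V (X; H) = (1 / X) ∫_0^X (ψ (x + H) - ψ (x) - H)² dx` -/
noncomputable def V (X H : ℝ) : ℝ := (∫ x in (0 : ℝ)..X, (psi (x + H) - psi x - H) ^ 2) / X

/-- the conjectured value `H (log X - log H - (γ + log 2π))` -/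
noncomputable def main (X H : ℝ) : ℝ :=
  H * (Real.log X - Real.log H - (Real.eulerMascheroniConstant + Real.log (2 * Real.pi)))

/-- Q1 for `V (X; H)`: for every `ε > 0`, `V (X; H) ~ H (log X - log H - (γ + log 2π))` uniformly for
`X ^ ε ≤ H ≤ X ^ (1 - ε)` -/
def Asymptotic : Prop := ∀ ε η : ℝ, 0 < ε → 0 < η → ∀ᶠ X : ℝ in atTop, ∀ H : ℝ,
  X ^ ε ≤ H → H ≤ X ^ (1 - ε) → |V X H / main X H - 1| ≤ η

/-- the same on the net `X = l ^ j`, `H = l ^ k` -/
def OnNet (l : ℝ) : Prop := ∀ ε η : ℝ, 0 < ε → 0 < η → ∃ j₀ : ℕ, ∀ j k : ℕ, j₀ ≤ j →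
  ε * j ≤ k → (k : ℝ) ≤ (1 - ε) * j → |V (l ^ j) (l ^ k) / main (l ^ j) (l ^ k) - 1| ≤ η

open Pool.Agent.Q85.PN

lemma V_eq (X H : ℝ) : V X H = J X H / X := rfl

/-- the constant is harmless -/
lemma conv (c : ℝ) {η : ℝ} (hη : 0 < η) : ∃ t₀ : ℝ, 0 < t₀ ∧ ∀ t : ℝ, t₀ ≤ t → ∀ P : ℝ,
    (|P / t - 1| ≤ η / 4 → |P / (t - c) - 1| ≤ η) ∧
      (|P / (t - c) - 1| ≤ η / 4 → |P / t - 1| ≤ η) := by
  obtain ⟨ν, hν⟩ : ∃ ν : ℝ, ν = min η 1 := ⟨_, rfl⟩
  have hν0 : 0 < ν := by rw [hν]; exact lt_min hη one_pos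
  have hν1 : ν ≤ 1 := by rw [hν]; exact min_le_right _ _
  have hν2 : ν ≤ η := by rw [hν]; exact min_le_left _ _
  have hc0 := abs_nonneg c
  refine ⟨8 * (|c| + 1) / ν, by positivity, fun t ht P => ?_⟩
  have ht0 : 0 < t := lt_of_lt_of_le (by positivity) ht
  rw [div_le_iff₀ hν0] at ht
  have hc1 : |c| ≤ t * ν / 8 := by linarith
  have hc2 : t * ν ≤ t * 1 := mul_le_mul_of_nonneg_left hν1 ht0.le
  have hc3 : t * ν ≤ t * η := mul_le_mul_of_nonneg_left hν2 ht0.le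
  obtain ⟨c1, c2⟩ := abs_le.1 (le_refl |c|)
  have htc : 0 < t - c := by linarith
  have e1 : P / t - 1 = (P - t) / t := by field_simp
  have e2 : P / (t - c) - 1 = (P - (t - c)) / (t - c) := by field_simp
  rw [e1, e2, abs_div, abs_div, abs_of_pos ht0, abs_of_pos htc, div_le_iff₀ ht0,
    div_le_iff₀ htc, div_le_iff₀ ht0, div_le_iff₀ htc]
  constructor
  · intro h
    obtain ⟨h1, h2⟩ := abs_le.1 h
    have h3 : η * c ≤ η * (t / 8) := by
      apply mul_le_mul_of_nonneg_left _ hη.le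
      linarith
    rw [abs_le]
    constructor <;> nlinarith
  · intro h
    obtain ⟨h1, h2⟩ := abs_le.1 h
    have h3 : η * (-c) ≤ η * (t / 8) := by
      apply mul_le_mul_of_nonneg_left _ hη.le
      linarith
    rw [abs_le]
    constructor <;> nlinarith

lemma ratio1 {X H : ℝ} (hX : 0 < X) (hH : 0 < H) :
    J X H / D X H = J X H / (H * X) / (Real.log X - Real.log H) := by
  unfold D
  rw [Real.log_div hX.ne' hH.ne', div_div]

lemma ratio2 {X H : ℝ} (_ : 0 < X) (_ : 0 < H) :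
    V X H / main X H = J X H / (H * X) / (Real.log X - Real.log H -
      (Real.eulerMascheroniConstant + Real.log (2 * Real.pi))) := by
  rw [V_eq]
  unfold main
  rw [div_div, div_div]
  congr 1
  ring

lemma asym_iff : Asymptotic ↔ GM := by
  have key : ∀ ε : ℝ, 0 < ε → ∀ t₀ : ℝ, ∀ᶠ X : ℝ in atTop, ∀ H : ℝ, X ^ ε ≤ H →
      H ≤ X ^ (1 - ε) → 0 < X ∧ 0 < H ∧ t₀ ≤ Real.log X - Real.log H := by
    intro ε hε t₀
    filter_upwards [eventually_gt_atTop 1,
      Real.tendsto_log_atTop.eventually_ge_atTop (t₀ / ε)] with X hX1 hX2 H hH1 hH2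
    have hX0 : 0 < X := by linarith
    have hH0 : 0 < H := (Real.rpow_pos_of_pos hX0 _).trans_le hH1
    refine ⟨hX0, hH0, ?_⟩
    have := Real.log_le_log hH0 hH2
    rw [Real.log_rpow hX0] at this
    rw [div_le_iff₀ hε] at hX2
    linarith
  constructor
  · intro h ε η hε hη
    obtain ⟨t₀, -, ht⟩ := conv (Real.eulerMascheroniConstant + Real.log (2 * Real.pi)) hη
    filter_upwards [h ε (η / 4) hε (by positivity), key ε hε t₀] with X h1 h2 H hH1 hH2
    obtain ⟨a1, a2, a3⟩ := h2 H hH1 hH2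
    have h3 := h1 H hH1 hH2
    rw [ratio2 a1 a2] at h3
    rw [ratio1 a1 a2]
    exact (ht _ a3 _).2 h3
  · intro h ε η hε hη
    obtain ⟨t₀, -, ht⟩ := conv (Real.eulerMascheroniConstant + Real.log (2 * Real.pi)) hη
    filter_upwards [h ε (η / 4) hε (by positivity), key ε hε t₀] with X h1 h2 H hH1 hH2
    obtain ⟨a1, a2, a3⟩ := h2 H hH1 hH2
    have h3 := h1 H hH1 hH2
    rw [ratio1 a1 a2] at h3
    rw [ratio2 a1 a2]
    exact (ht _ a3 _).1 h3

lemma net_iff {l : ℝ} (hl : 1 < l) : OnNet l ↔ Net l := by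
  have hl0 : 0 < l := by linarith
  have hg : 0 < Real.log l := Real.log_pos hl
  have key : ∀ ε : ℝ, 0 < ε → ∀ t₀ : ℝ, ∃ j₁ : ℕ, ∀ j k : ℕ, j₁ ≤ j → (k : ℝ) ≤ (1 - ε) * j →
      t₀ ≤ Real.log (l ^ j) - Real.log (l ^ k) := by
    intro ε hε t₀
    obtain ⟨j₁, hj₁⟩ := exists_nat_ge (t₀ / (ε * Real.log l))
    refine ⟨j₁, fun j k hj hk => ?_⟩
    have h1 : (j₁ : ℝ) ≤ j := by exact_mod_cast hj
    rw [div_le_iff₀ (by positivity)] at hj₁
    have h2 : (j₁ : ℝ) * (ε * Real.log l) ≤ j * (ε * Real.log l) := by gcongr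
    have h3 : (k : ℝ) * Real.log l ≤ (1 - ε) * j * Real.log l := by gcongr
    rw [Real.log_pow, Real.log_pow]
    linarith
  constructor
  · intro h ε η hε hη
    obtain ⟨t₀, -, ht⟩ := conv (Real.eulerMascheroniConstant + Real.log (2 * Real.pi)) hη
    obtain ⟨j₀, hj₀⟩ := h ε (η / 4) hε (by positivity)
    obtain ⟨j₁, hj₁⟩ := key ε hε t₀
    refine ⟨max j₀ j₁, fun j k hj hk1 hk2 => ?_⟩
    have h3 := hj₀ j k ((le_max_left _ _).trans hj) hk1 hk2
    rw [ratio2 (by positivity) (by positivity)] at h3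
    rw [ratio1 (by positivity) (by positivity)]
    exact (ht _ (hj₁ j k ((le_max_right _ _).trans hj) hk2) _).2 h3
  · intro h ε η hε hη
    obtain ⟨t₀, -, ht⟩ := conv (Real.eulerMascheroniConstant + Real.log (2 * Real.pi)) hη
    obtain ⟨j₀, hj₀⟩ := h ε (η / 4) hε (by positivity)
    obtain ⟨j₁, hj₁⟩ := key ε hε t₀
    refine ⟨max j₀ j₁, fun j k hj hk1 hk2 => ?_⟩
    have h3 := hj₀ j k ((le_max_left _ _).trans hj) hk1 hk2
    rw [ratio1 (by positivity) (by positivity)] at h3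
    rw [ratio2 (by positivity) (by positivity)]
    exact (ht _ (hj₁ j k ((le_max_right _ _).trans hj) hk2) _).1 h3

/-- **The variance of primes in short intervals on geometric nets.**  (1), (2) The asymptotic formula
is equivalent to the formula on all the nets `X = l ^ j`, `H = l ^ k`, and to the formula on such nets
with `l` arbitrarily near to `1`.  (3) The formula on one net with `1 < l ≤ 2` gives
`V (X; H) ≤ 193 H log X` for all `X ^ ε ≤ H ≤ X ^ (1 - ε)`. -/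
theorem result :
    (Asymptotic ↔ ∀ l : ℝ, 1 < l → OnNet l) ∧
    (Asymptotic ↔ ∀ δ : ℝ, 0 < δ → ∃ l : ℝ, 1 < l ∧ l < 1 + δ ∧ OnNet l) ∧
    (∀ l : ℝ, 1 < l → l ≤ 2 → OnNet l → ∀ ε : ℝ, 0 < ε → ε < 1 → ∀ᶠ X : ℝ in atTop, ∀ H : ℝ,
      X ^ ε ≤ H → H ≤ X ^ (1 - ε) → V X H ≤ 193 * (H * Real.log X)) := by
  have h1 : Asymptotic → ∀ l : ℝ, 1 < l → OnNet l := fun h l hl =>
    (net_iff hl).2 (GM_net (asym_iff.1 h) hl)
  have h2 : (∀ δ : ℝ, 0 < δ → ∃ l : ℝ, 1 < l ∧ l < 1 + δ ∧ OnNet l) → Asymptotic := by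
    intro h
    refine asym_iff.2 (net_GM fun δ hδ => ?_)
    obtain ⟨l, hl, hlδ, hN⟩ := h δ hδ
    exact ⟨l, hl, hlδ, (net_iff hl).1 hN⟩
  have h3 : (∀ l : ℝ, 1 < l → OnNet l) →
      ∀ δ : ℝ, 0 < δ → ∃ l : ℝ, 1 < l ∧ l < 1 + δ ∧ OnNet l := fun h δ hδ =>
    ⟨1 + δ / 2, by linarith, by linarith, h _ (by linarith)⟩
  refine ⟨⟨h1, fun h => h2 (h3 h)⟩, ⟨fun h => h3 (h1 h), h2⟩, fun l hl hl2 hN ε hε hε1 => ?_⟩
  filter_upwards [order hl hl2 ((net_iff hl).1 hN) hε hε1 one_pos, eventually_gt_atTop 1]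
    with X hX hX1 H hH1 hH2
  have hX0 : 0 < X := by linarith
  have hH0 : 0 < H := (Real.rpow_pos_of_pos hX0 _).trans_le hH1
  have hHX : H ≤ X := by
    refine hH2.trans ?_
    calc X ^ (1 - ε) ≤ X ^ (1 : ℝ) := Real.rpow_le_rpow_of_exponent_le hX1.le (by linarith)
      _ = X := Real.rpow_one X
  have a1 := hX H H hH1 hH2 hH0.le le_rfl
  have a2 : J X H ≤ J (2 * X - H) H := J_mono hH0.le hX0.le (by linarith)
  rw [V_eq, div_le_iff₀ hX0]
  linarith

end Pool.Agent.Results.MP_2a816b_nt.GeometricNets
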