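import Pool.Agent.Q42.RS.LamVar

/-!
# The variance of primes in random subsets of short windows
-/

set_option autoImplicit false

namespace Pool.Agent.Results.MP_2a816b_nt.RandomSubsets

open Finset

/-- the von Mangoldt function -/
noncomputable def lam (n : ℕ) : ℝ := ArithmeticFunction.vonMangoldt n

/-- the variance for the translates `x + A`, `1 ≤ x ≤ X`, of a set `A` -/
noncomputable def VA (X : ℕ) (A : Finset ℕ) : ℝ :=
  (1 / (X : ℝ)) * ∑ x ∈ Icc 1 X, (∑ b ∈ A, lam (x + b) - A.card) ^ 2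

/-- the variance for the windows `[x, x + Y)` -/
noncomputable def V (X Y : ℕ) : ℝ := VA X (range Y)

/-- the variance for the samples `x + a 1, ..., x + a H` of the windows `[x, x + Y)` -/
noncomputable def VS (X : ℕ) {Y H : ℕ} (a : Fin H → Fin Y) : ℝ :=
  (1 / (X : ℝ)) * ∑ x ∈ Icc 1 X, (∑ i, lam (x + a i) - H) ^ 2

open scoped Classical in
/-- the number of subsets of `[0, Y)` with the property `P` -/
noncomputable def num (Y : ℕ) (P : Finset ℕ → Prop) : ℝ := (((range Y).powerset.filter P).card : ℝ)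

open scoped Classical in
/-- the number of samples of length `H` of `[0, Y)` with the property `P` -/
noncomputable def numS (Y H : ℕ) (P : (Fin H → Fin Y) → Prop) : ℝ := ((univ.filter P).card : ℝ)

lemma V_nonneg (X Y : ℕ) : 0 ≤ V X Y := by
  unfold V VA
  positivity

open Pool.Agent.Q42.RS (av av_J gl ml lam_inputs var_main sub_main2 av_fin)

lemma Vml (X Y : ℕ) (hY : 1 ≤ Y) : (Y : ℝ) ^ 2 * av (fun x : Icc 1 X => ml Y x ^ 2) = V X Y := by
  have hY0 : (0 : ℝ) < Y := by exact_mod_cast hY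
  rw [av_J (fun x => ml Y x ^ 2)]
  unfold V VA
  have e : ∀ x ∈ Icc 1 X, (∑ b ∈ range Y, lam (x + b) - ((range Y).card : ℝ)) ^ 2 = (Y : ℝ) ^ 2 * ml Y x ^ 2 := by
    intro x _
    unfold ml
    rw [av_fin (fun b => gl (x + b))]
    unfold gl
    rw [sum_sub_distrib, sum_const, card_range, nsmul_eq_mul, mul_one]
    change (∑ b ∈ range Y, lam (x + b) - (Y : ℝ)) ^ 2 = (Y : ℝ) ^ 2 * ((∑ b ∈ range Y, lam (x + b) - (Y : ℝ)) / Y) ^ 2
    rw [div_pow]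
    field_simp
  rw [sum_congr rfl e, ← mul_sum]
  ring

lemma part1 (ε : ℝ) (hε : 0 < ε) : ∃ N₀ : ℕ, ∀ X Y H : ℕ, N₀ ≤ Y → Y ≤ X → 1 ≤ H →
    numS Y H (fun a => ¬ |VS X a - (H * Real.log X + ((H : ℝ) / Y) ^ 2 * V X Y)| ≤
      ε * (H * Real.log X + ((H : ℝ) / Y) ^ 2 * V X Y)) ≤ ε * (Y : ℝ) ^ H := by
  obtain ⟨δ, hδ0, hδ1, hδ2⟩ : ∃ δ : ℝ, 0 < δ ∧ δ ≤ ε / 6 ∧ 9 * √δ + 18 * δ ≤ ε ^ 3 := by
    refine ⟨min (ε / 6) (min (ε ^ 3 / 36) ((ε ^ 3 / 18) ^ 2)), by positivity, min_le_left _ _, ?_⟩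
    have h1 : √(min (ε / 6) (min (ε ^ 3 / 36) ((ε ^ 3 / 18) ^ 2))) ≤ ε ^ 3 / 18 := by
      apply Real.sqrt_le_iff.2
      exact ⟨by positivity, (min_le_right _ _).trans (min_le_right _ _)⟩
    have h2 : min (ε / 6) (min (ε ^ 3 / 36) ((ε ^ 3 / 18) ^ 2)) ≤ ε ^ 3 / 36 :=
      (min_le_right _ _).trans (min_le_left _ _)
    linarith
  obtain ⟨N₀, h1⟩ := lam_inputs δ hδ0
  refine ⟨N₀, fun X Y H hY hYX hH => ?_⟩
  obtain ⟨hY1, hX3, hK, hv, -, hΓ⟩ := h1 X Y hY hYX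
  have hY0 : (0 : ℝ) < Y := by exact_mod_cast hY1
  have : Nonempty (Fin Y) := ⟨⟨0, by omega⟩⟩
  have : Nonempty (Icc 1 X) := ⟨⟨1, by rw [mem_Icc]; omega⟩⟩
  have hL0 : 0 < Real.log X := Real.log_pos (by exact_mod_cast (by omega : 1 < X))
  have hwt : ∀ (x : ℕ) (b : Fin Y), (gl (x + b) - ml Y x) + ml Y x = gl (x + b) := fun x b => by ring
  have key := var_main (α := Icc 1 X) (β := Fin Y) (fun x => ml Y x) (fun x b => gl (x + b) - ml Y x)
    (fun x => by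
      rw [Pool.Agent.Q42.RS.av_sub, Pool.Agent.Q42.RS.av_const]
      unfold ml
      exact sub_self _) (Real.log X) δ ε hL0 hε hδ0 hδ1 hδ2
    (fun b => by simpa only [hwt] using hK b) hv hΓ H hH
  rw [Fintype.card_fin] at key
  have e1 : ∀ a : Fin H → Fin Y, av (fun x : Icc 1 X => (∑ i, ((gl (x + a i) - ml Y x) + ml Y x)) ^ 2) = VS X a := by
    intro a
    rw [av_J (fun x => (∑ i, ((gl (x + a i) - ml Y x) + ml Y x)) ^ 2)]
    unfold VS
    congr 1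
    apply sum_congr rfl
    intro x _
    simp_rw [hwt]
    unfold gl
    rw [sum_sub_distrib, sum_const, card_univ, Fintype.card_fin, nsmul_eq_mul, mul_one]
    rfl
  have e2 : Real.log X * H + (H : ℝ) ^ 2 * av (fun x : Icc 1 X => ml Y x ^ 2) =
      H * Real.log X + ((H : ℝ) / Y) ^ 2 * V X Y := by
    rw [← Vml X Y hY1]
    field_simp
  rw [e2] at key
  simp_rw [e1] at key
  unfold numS
  convert key

lemma num_le {Y : ℕ} {P : Finset ℕ → Prop} {R : (Fin Y → Bool) → Prop} [DecidablePred R]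
    (h : ∀ A : Finset ℕ, A ⊆ range Y → P A → R (fun i => decide ((i : ℕ) ∈ A))) :
    num Y P ≤ ((univ.filter R).card : ℝ) := by
  classical
  unfold num
  apply Nat.cast_le.2
  apply card_le_card_of_injOn (fun (A : Finset ℕ) (i : Fin Y) => decide ((i : ℕ) ∈ A))
  · intro A hA
    have hA1 := Finset.mem_coe.1 hA
    rw [mem_filter, mem_powerset] at hA1
    refine Finset.mem_coe.2 ?_
    rw [mem_filter]
    exact ⟨mem_univ _, h A hA1.1 hA1.2⟩
  · intro A hA B hB hAB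
    have hA1 := (mem_powerset.1 (mem_filter.1 (Finset.mem_coe.1 hA)).1)
    have hB1 := (mem_powerset.1 (mem_filter.1 (Finset.mem_coe.1 hB)).1)
    ext n
    constructor
    · intro hn
      have := congrFun hAB ⟨n, mem_range.1 (hA1 hn)⟩
      simp only [decide_eq_decide] at this
      exact this.1 hn
    · intro hn
      have := congrFun hAB ⟨n, mem_range.1 (hB1 hn)⟩
      simp only [decide_eq_decide] at this
      exact this.2 hn

lemma part2 (ε : ℝ) (hε : 0 < ε) : ∃ N₀ : ℕ, ∀ X Y : ℕ, N₀ ≤ Y → Y ≤ X → 1 ≤ Y ∧ 3 ≤ X ∧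
    num Y (fun A => ¬ |VA X A - (Y * Real.log X + V X Y) / 4| ≤ ε * (Y * Real.log X + V X Y)) ≤
      ε * (2 : ℝ) ^ Y := by
  classical
  obtain ⟨δ, hδ0, hδ1, hδ2, hδ3⟩ : ∃ δ : ℝ, 0 < δ ∧ δ ≤ ε ∧ 3 * √δ ≤ ε ^ 3 ∧ 5 * δ ≤ ε ^ 3 := by
    refine ⟨min ε (min (ε ^ 3 / 5) ((ε ^ 3 / 3) ^ 2)), by positivity, min_le_left _ _, ?_, ?_⟩
    · have h1 : √(min ε (min (ε ^ 3 / 5) ((ε ^ 3 / 3) ^ 2))) ≤ ε ^ 3 / 3 := by
        apply Real.sqrt_le_iff.2
        exact ⟨by positivity, (min_le_right _ _).trans (min_le_right _ _)⟩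
      linarith
    · have h2 : min ε (min (ε ^ 3 / 5) ((ε ^ 3 / 3) ^ 2)) ≤ ε ^ 3 / 5 :=
        (min_le_right _ _).trans (min_le_left _ _)
      linarith
  obtain ⟨N₀, h1⟩ := lam_inputs δ hδ0
  refine ⟨N₀, fun X Y hY hYX => ?_⟩
  obtain ⟨hY1, hX3, hK, hv, hΓ, -⟩ := h1 X Y hY hYX
  refine ⟨hY1, hX3, ?_⟩
  have hY0 : (0 : ℝ) < Y := by exact_mod_cast hY1
  have hL0 : 0 < Real.log X := Real.log_pos (by exact_mod_cast (by omega : 1 < X))
  have : Nonempty (Icc 1 X) := ⟨⟨1, by rw [mem_Icc]; omega⟩⟩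
  have key := sub_main2 (α := Icc 1 X) hY1 (fun x => ml Y x) (fun x b => gl (x + b)) (fun x => rfl)
    (Real.log X) δ ε hL0 hε hδ0 hδ1 hδ2 hδ3 hK hΓ
  have e2 : Real.log X * Y + (Y : ℝ) ^ 2 * av (fun x : Icc 1 X => ml Y x ^ 2) = Y * Real.log X + V X Y := by
    rw [Vml X Y hY1]
    ring
  rw [e2] at key
  refine le_trans (num_le fun A hA1 hA2 => ?_) key
  have e3 : av (fun x : Icc 1 X => (∑ b : Fin Y, (if decide ((b : ℕ) ∈ A) = true then gl (x + b) else 0)) ^ 2) = VA X A := by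
    rw [av_J (fun x => (∑ b : Fin Y, (if decide ((b : ℕ) ∈ A) = true then gl (x + b) else 0)) ^ 2)]
    unfold VA
    congr 1
    apply sum_congr rfl
    intro x _
    congr 1
    simp only [decide_eq_true_eq]
    rw [Fin.sum_univ_eq_sum_range (fun b => if b ∈ A then gl (x + b) else 0) Y, ← sum_filter]
    have e4 : (range Y).filter (fun b => b ∈ A) = A := by
      ext b
      rw [mem_filter]
      exact ⟨fun h => h.2, fun h => ⟨hA1 h, h⟩⟩
    rw [e4]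
    unfold gl
    rw [sum_sub_distrib, sum_const, nsmul_eq_mul, mul_one]
    rfl
  rw [e3]
  exact hA2

lemma num_mono {Y : ℕ} {P P' : Finset ℕ → Prop} (h : ∀ A, P A → P' A) : num Y P ≤ num Y P' := by
  classical
  unfold num
  apply Nat.cast_le.2
  apply card_le_card
  intro A hA
  rw [mem_filter] at hA ⊢
  exact ⟨hA.1, h A hA.2⟩

lemma part3 (ε : ℝ) (hε : 0 < ε) : ∃ δ : ℝ, 0 < δ ∧ ∃ N₀ : ℕ, ∀ X Y : ℕ, N₀ ≤ Y → Y ≤ X →
    ∀ W : ℝ, 0 ≤ W → W ≤ Y * Real.log X →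
    (|V X Y - W| ≤ δ * (Y * Real.log X) →
      num Y (fun A => ¬ |VA X A - (W + Y * Real.log X) / 4| ≤ ε * (Y * Real.log X)) ≤ ε * (2 : ℝ) ^ Y) ∧
    (ε * (2 : ℝ) ^ Y ≤ num Y (fun A => |VA X A - (W + Y * Real.log X) / 4| ≤ δ * (Y * Real.log X)) →
      |V X Y - W| ≤ ε * (Y * Real.log X)) := by
  classical
  set ε' := min (ε / 50) (1 / 8) with hε'
  have hε'0 : 0 < ε' := by positivity
  have hε'1 : ε' ≤ ε / 50 := min_le_left _ _
  have hε'2 : ε' ≤ 1 / 8 := min_le_right _ _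
  obtain ⟨N₀, h2⟩ := part2 ε' hε'0
  refine ⟨ε', hε'0, N₀, fun X Y hY hYX W hW0 hW1 => ?_⟩
  obtain ⟨hY1, hX3, h3⟩ := h2 X Y hY hYX
  have hY0 : (0 : ℝ) < Y := by exact_mod_cast hY1
  have hL0 : 0 < Real.log X := Real.log_pos (by exact_mod_cast (by omega : 1 < X))
  have hT0 : 0 < Y * Real.log X := by positivity
  set T := Y * Real.log X with hT
  have hV := V_nonneg X Y
  have h2Y : (0 : ℝ) < 2 ^ Y := by positivity
  constructor
  · intro hVY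
    refine le_trans ?_ (h3.trans (mul_le_mul_of_nonneg_right (by linarith : ε' ≤ ε) h2Y.le))
    refine num_mono fun A hA hA2 => hA ?_
    rw [abs_le] at hVY hA2 ⊢
    have h5 : ε' * T ≤ 1 / 8 * T := mul_le_mul_of_nonneg_right hε'2 hT0.le
    have h4 : ε' * (T + V X Y) ≤ ε / 50 * (4 * T) := by
      apply mul_le_mul hε'1 _ (by positivity) (by positivity)
      linarith [hVY.2]
    have h6 : ε' * T ≤ ε / 50 * T := mul_le_mul_of_nonneg_right hε'1 hT0.le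
    have h7 : 0 < ε * T := by positivity
    constructor <;> linarith [hVY.1, hVY.2, hA2.1, hA2.2]
  · intro hnum
    obtain ⟨A, hA1, hA2⟩ : ∃ A : Finset ℕ, |VA X A - (W + T) / 4| ≤ ε' * T ∧
        |VA X A - (T + V X Y) / 4| ≤ ε' * (T + V X Y) := by
      by_contra hno
      push Not at hno
      have h5 : num Y (fun A => |VA X A - (W + T) / 4| ≤ ε' * T) ≤
          num Y (fun A => ¬ |VA X A - (T + V X Y) / 4| ≤ ε' * (T + V X Y)) :=
        num_mono fun A hA => not_le.2 (hno A hA)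
      have h6 := (hnum.trans h5).trans h3
      have h7 : ε' < ε := by linarith
      nlinarith
    rw [abs_le] at hA1 hA2 ⊢
    have h8 : ε' * (T + V X Y) ≤ 1 / 8 * (T + V X Y) := mul_le_mul_of_nonneg_right hε'2 (by positivity)
    have h9 : ε' * T ≤ 1 / 8 * T := mul_le_mul_of_nonneg_right hε'2 hT0.le
    have h10 : T + V X Y ≤ 6 * T := by linarith [hA1.2, hA2.1]
    have h11 : ε' * (T + V X Y) ≤ ε / 50 * (6 * T) := mul_le_mul hε'1 h10 (by positivity) (by positivity)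
    have h12 : ε' * T ≤ ε / 50 * T := mul_le_mul_of_nonneg_right hε'1 hT0.le
    have h13 : 0 < ε * T := by positivity
    constructor <;> linarith [hA1.1, hA1.2, hA2.1, hA2.2]

theorem result :
    (∀ ε : ℝ, 0 < ε → ∃ N₀ : ℕ, ∀ X Y H : ℕ, N₀ ≤ Y → Y ≤ X → 1 ≤ H →
      numS Y H (fun a => ¬ |VS X a - (H * Real.log X + ((H : ℝ) / Y) ^ 2 * V X Y)| ≤
        ε * (H * Real.log X + ((H : ℝ) / Y) ^ 2 * V X Y)) ≤ ε * (Y : ℝ) ^ H) ∧
    (∀ ε : ℝ, 0 < ε → ∃ N₀ : ℕ, ∀ X Y : ℕ, N₀ ≤ Y → Y ≤ X →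
      num Y (fun A => ¬ |VA X A - (Y * Real.log X + V X Y) / 4| ≤ ε * (Y * Real.log X + V X Y)) ≤
        ε * (2 : ℝ) ^ Y) ∧
    (∀ ε : ℝ, 0 < ε → ∃ δ : ℝ, 0 < δ ∧ ∃ N₀ : ℕ, ∀ X Y : ℕ, N₀ ≤ Y → Y ≤ X →
      ∀ W : ℝ, 0 ≤ W → W ≤ Y * Real.log X →
      (|V X Y - W| ≤ δ * (Y * Real.log X) →
        num Y (fun A => ¬ |VA X A - (W + Y * Real.log X) / 4| ≤ ε * (Y * Real.log X)) ≤ ε * (2 : ℝ) ^ Y) ∧
      (ε * (2 : ℝ) ^ Y ≤ num Y (fun A => |VA X A - (W + Y * Real.log X) / 4| ≤ δ * (Y * Real.log X)) →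
        |V X Y - W| ≤ ε * (Y * Real.log X))) := by
  refine ⟨part1, fun ε hε => ?_, part3⟩
  obtain ⟨N₀, h⟩ := part2 ε hε
  exact ⟨N₀, fun X Y hY hYX => (h X Y hY hYX).2.2⟩

end Pool.Agent.Results.MP_2a816b_nt.RandomSubsets
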