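import Pool.Agent.Q32.Si.P

set_option autoImplicit false

/-!
# MP_2a816b_nt: primes in short intervals on a sparse sequence of scales, and the zeros of zeta

Let `V(X;H) = (1/X) ∫_X^{2X} |ψ(x;H) - H|² dx` (the dyadic form of the mean square of the problem, free of the
trivial contribution of the `x < H/2`).

* For `1/2 ≤ Θ < 1` the following are equivalent: `ζ` has no zero with real part greater than `Θ`; for every `ε > 0`
  and all large `X` one has `V(X;H) ≤ X^(2Θ+ε)` for all `0 ≤ H ≤ X`; for every `ε > 0` there are arbitrarily large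
  `X` (as sparse as one likes) with `V(X;H) ≤ X^(2Θ+ε)` for all `X^Θ ≤ H ≤ X^(1-ε)`.
* So the Riemann hypothesis holds if for every `ε > 0` there are arbitrarily large `X` with `V(X;H) ≤ X^ε H` for all
  `H` between `X^ε` and `X^(1-ε)`, and if `ζ` has a zero to the right of `θ ≥ 1/2`, then for some `δ > 0` and ALL large
  `X` there is `H` in `[X^θ, X^(1-δ)]` with `V(X;H) > X^(2θ+δ)`.
* Let `2/3 ≤ Θ < 1`.  If for every `ε > 0` there are arbitrarily large `X` and one single length `H` in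
  `[X^(2-2Θ), X^Θ]` with `V(X;H) ≤ X^ε H`, then `ζ` has no zero with real part greater than `Θ`.
-/

namespace Pool.Agent.Results.MP_2a816b_nt.SparseScales

open Filter MeasureTheory Pool.Agent.Q32.Si

/-- The weighted number of prime powers in the interval of length `H` centred at `x`. -/
noncomputable def psi (x H : ℝ) : ℝ :=
  ∑ᶠ n ∈ {n : ℕ | 1 ≤ n ∧ x - H / 2 ≤ n ∧ (n : ℝ) ≤ x + H / 2}, ArithmeticFunction.vonMangoldt n

/-- the mean square over `[X, 2X]` -/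
noncomputable def V (X H : ℝ) : ℝ := (1 / X) * ∫ x in X..2 * X, |psi x H - H| ^ 2

/-- No zeros to the right of `Θ`. -/
def ZeroFree (Θ : ℝ) : Prop := ∀ s : ℂ, Θ < s.re → riemannZeta s ≠ 0

/-- the bound for all lengths at all large scales -/
def Always (Θ : ℝ) : Prop :=
  ∀ ε : ℝ, 0 < ε → ∀ᶠ X : ℝ in atTop, ∀ H : ℝ, 0 ≤ H → H ≤ X → V X H ≤ X ^ (2 * Θ + ε)

/-- the bound for lengths between `X^Θ` and `X^(1-ε)` at arbitrarily large scales -/
def Sparsely (Θ : ℝ) : Prop :=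
  ∀ ε : ℝ, 0 < ε → ∃ᶠ X : ℝ in atTop, ∀ H : ℝ, X ^ Θ ≤ H → H ≤ X ^ (1 - ε) → V X H ≤ X ^ (2 * Θ + ε)

theorem V_le {X H B : ℝ} (hX : 0 < X) : V X H ≤ B ↔ ∫ x in X..2 * X, mP x H ^ 2 ≤ X * B := by
  have e : V X H = (∫ x in X..2 * X, mP x H ^ 2) / X := by
    unfold V
    rw [div_mul_eq_mul_div, one_mul]
    congr 1
    refine intervalIntegral.integral_congr fun x _ => ?_
    simp only [sq_abs]
    rfl
  rw [e, div_le_iff₀ hX, mul_comm B]

theorem tfae {Θ : ℝ} (h0 : 1 / 2 ≤ Θ) (h1 : Θ < 1) : [ZeroFree Θ, Always Θ, Sparsely Θ].TFAE := by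
  tfae_have 1 → 2 := by
    intro hz ε hε
    filter_upwards [var_of_zf mP_short (fun Θ a b c τ d => fP_le a b c d) h0 h1 hz ε hε,
      eventually_gt_atTop 0] with X a1 a2 H b1 b2
    rw [V_le a2]
    refine (a1 H b1 b2).trans (le_of_eq ?_)
    nth_rewrite 2 [← Real.rpow_one X]
    rw [← Real.rpow_add a2]
    congr 1
    ring
  tfae_have 2 → 3 := by
    intro h ε hε
    refine ((h ε hε).and (eventually_ge_atTop 1)).frequently.mono ?_
    rintro X ⟨a1, a2⟩ H b1 b2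
    refine a1 H ((Real.rpow_nonneg (by linarith) _).trans b1) (b2.trans ?_)
    calc X ^ (1 - ε) ≤ X ^ (1:ℝ) := Real.rpow_le_rpow_of_exponent_le a2 (by linarith)
      _ = X := Real.rpow_one X
  tfae_have 3 → 1 := by
    intro h
    refine zf_of_var mP_short fP_nice fP_gr fP_win h0 h1 fun ε hε => ?_
    refine ((h ε hε).and_eventually (eventually_gt_atTop 0)).mono ?_
    rintro X ⟨a1, a2⟩ H b1 b2
    refine ((V_le a2).1 (a1 H b1 b2)).trans (le_of_eq ?_)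
    nth_rewrite 1 [← Real.rpow_one X]
    rw [← Real.rpow_add a2]
    congr 1
    ring
  tfae_finish

theorem one_length {Θ : ℝ} (h0 : 2 / 3 ≤ Θ) (h1 : Θ < 1)
    (h : ∀ ε : ℝ, 0 < ε → ∃ᶠ X : ℝ in atTop, ∃ H : ℝ, X ^ (2 - 2 * Θ) ≤ H ∧ H ≤ X ^ Θ ∧
      V X H ≤ X ^ ε * H) : ZeroFree Θ := by
  refine zf_of_one_var mP_short fP_nice fP_gr fP_win (by linarith) h1 fun ε hε => ?_
  refine ((h ε hε).and_eventually (eventually_gt_atTop 0)).mono ?_
  rintro X ⟨⟨H, b1, b2, b3⟩, a2⟩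
  refine ⟨H, b1, b2, ?_⟩
  rw [mul_comm H]
  exact (V_le a2).1 b3

theorem result :
    (∀ Θ : ℝ, 1 / 2 ≤ Θ → Θ < 1 → [ZeroFree Θ, Always Θ, Sparsely Θ].TFAE) ∧
    (RiemannHypothesis ↔ Sparsely (1 / 2)) ∧
    ((∀ ε : ℝ, 0 < ε → ∃ᶠ X : ℝ in atTop, ∀ H : ℝ, X ^ ε < H → H < X ^ (1 - ε) → V X H ≤ X ^ ε * H) →
      RiemannHypothesis) ∧
    (∀ θ : ℝ, 1 / 2 ≤ θ → (∃ s : ℂ, riemannZeta s = 0 ∧ θ < s.re) →
      ∃ δ : ℝ, 0 < δ ∧ ∀ᶠ X : ℝ in atTop, ∃ H : ℝ, X ^ θ ≤ H ∧ H ≤ X ^ (1 - δ) ∧ X ^ (2 * θ + δ) < V X H) ∧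
    (∀ Θ : ℝ, 2 / 3 ≤ Θ → Θ < 1 →
      (∀ ε : ℝ, 0 < ε → ∃ᶠ X : ℝ in atTop, ∃ H : ℝ, X ^ (2 - 2 * Θ) ≤ H ∧ H ≤ X ^ Θ ∧ V X H ≤ X ^ ε * H) →
      ZeroFree Θ) := by
  have hRH : RiemannHypothesis ↔ Sparsely (1 / 2) :=
    Iff.trans Pool.Agent.W190.rh_free ((tfae le_rfl (by norm_num)).out 0 2)
  refine ⟨fun Θ a b => tfae a b, hRH, fun h => ?_, fun θ h0 hz => ?_, fun Θ a b h => one_length a b h⟩
  · rw [hRH]
    intro ε hε
    have hm : 0 < min (ε / 2) (1 / 4) := lt_min (by linarith) (by norm_num)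
    refine ((h _ hm).and_eventually (eventually_gt_atTop 1)).mono ?_
    rintro X ⟨a1, a2⟩ H b1 b2
    set η : ℝ := min (ε / 2) (1 / 4) with hη
    have hη1 : η ≤ ε / 2 := min_le_left _ _
    have hη2 : η ≤ 1 / 4 := min_le_right _ _
    have hX0 : 0 < X := by linarith
    have c := a1 H (lt_of_lt_of_le (Real.rpow_lt_rpow_of_exponent_lt a2 (by linarith)) b1)
      (lt_of_le_of_lt b2 (Real.rpow_lt_rpow_of_exponent_lt a2 (by linarith)))
    refine c.trans ?_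
    calc X ^ η * H ≤ X ^ η * X ^ (1 - ε) := by gcongr
      _ = X ^ (η + (1 - ε)) := by rw [← Real.rpow_add hX0]
      _ ≤ X ^ (2 * (1 / 2) + ε) := Real.rpow_le_rpow_of_exponent_le a2.le (by linarith)
  · obtain ⟨s, hs, hs1⟩ := hz
    have hre : s.re < 1 := by
      by_contra hc
      exact riemannZeta_ne_zero_of_one_le_re (not_lt.1 hc) hs
    have hiff : Sparsely θ ↔ ZeroFree θ := (tfae h0 (hs1.trans hre)).out 2 0
    have hn : ¬ Sparsely θ := fun h => hiff.1 h s hs1 hs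
    unfold Sparsely at hn
    push Not at hn
    obtain ⟨ε, hε, hX⟩ := hn
    exact ⟨ε, hε, hX⟩

end Pool.Agent.Results.MP_2a816b_nt.SparseScales
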